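import Pool.Agent.H74.TF.Stm

/-!
# Project TF, part ABS
-/

set_option autoImplicit false

namespace Pool.Agent.H60.TF

open Finset Pool.Agent.H74.TF

section Core

variable {F V B ι : Type} [Field F] [AddCommGroup V] [Module F V] [FiniteDimensional F V]
  [CommRing B] [Algebra F B] (Ψ : B →ₐ[F] Module.End F V) (b : ι → B) (d : ι → F)

theorem abs_gen (j : ι) (w : V) :
    w ∈ Module.End.maxGenEigenspace (Ψ (b j)) (d j) ↔
      Ψ ((b j - algebraMap F B (d j)) ^ (Module.finrank F V)) w = 0 := by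
  rw [Module.End.maxGenEigenspace_eq_genEigenspace_finrank, Module.End.mem_genEigenspace_nat]
  rw [LinearMap.mem_ker, map_pow, map_sub, AlgHom.commutes]
  rfl

theorem abs_idem [FiniteDimensional F B] : ∃ e : B, IsIdempotentElem e ∧ ∀ w : V,
    (∀ j, w ∈ Module.End.maxGenEigenspace (Ψ (b j)) (d j)) ↔ Ψ e w = 0 := by
  have hA : IsArtinianRing B := IsArtinianRing.of_finite F B
  have hN : IsNoetherianRing B := IsNoetherianRing.of_finite F B
  let I : Ideal B := Ideal.span (Set.range fun j => b j - algebraMap F B (d j))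
  let f : ℕ →o (Submodule B B)ᵒᵈ :=
    { toFun := fun n => OrderDual.toDual (I ^ n : Ideal B)
      monotone' := fun n m h => OrderDual.toDual_le_toDual.mpr (Ideal.pow_le_pow_right h) }
  obtain ⟨n, hn⟩ := IsArtinian.monotone_stabilizes f
  have hn' : ∀ m, n ≤ m → (I ^ n : Ideal B) = I ^ m := fun m h => hn m h
  have hid : IsIdempotentElem (I ^ (n + 1) : Ideal B) := by
    show (I ^ (n + 1) : Ideal B) * I ^ (n + 1) = I ^ (n + 1)
    rw [← pow_add, ← hn' (n + 1) (by omega), ← hn' (n + 1 + (n + 1)) (by omega)]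
  have hfg : ∀ K : Ideal B, K.FG := fun K => IsNoetherian.noetherian K
  obtain ⟨e, he, heI⟩ := (Ideal.isIdempotentElem_iff_of_fg _ (hfg _)).mp hid
  have hpow : ∀ K, e ^ (K + 1) = e := by
    intro K
    exact he.pow_succ_eq K
  refine ⟨e, he, fun w => ⟨fun h => ?_, fun h j => ?_⟩⟩
  · let A : Ideal B :=
      { carrier := {c | Ψ c w = 0}
        add_mem' := fun {x y} hx hy => by
          show Ψ (x + y) w = 0
          rw [map_add, LinearMap.add_apply, hx, hy, add_zero]
        zero_mem' := by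
          show Ψ 0 w = 0
          rw [map_zero, LinearMap.zero_apply]
        smul_mem' := fun c x hx => by
          show Ψ (c * x) w = 0
          rw [map_mul, Module.End.mul_apply, hx, map_zero] }
    have hIA : I ≤ A.radical := by
      rw [Ideal.span_le]
      rintro _ ⟨j, rfl⟩
      exact ⟨Module.finrank F V, (abs_gen Ψ b d j w).mp (h j)⟩
    obtain ⟨K, hK⟩ := Ideal.exists_pow_le_of_le_radical_of_fg hIA (hfg I)
    have heI' : e ∈ (I ^ (n + 1) : Ideal B) := by
      rw [heI]; exact Submodule.mem_span_singleton_self e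
    have he1 : e ∈ I := Ideal.pow_le_self (Nat.succ_ne_zero n) heI'
    have he2 : e ^ (K + 1) ∈ (I ^ K : Ideal B) :=
      Ideal.pow_le_pow_right (Nat.le_succ K) (Ideal.pow_mem_pow he1 (K + 1))
    rw [hpow] at he2
    exact hK he2
  · rw [abs_gen]
    have h1 : (b j - algebraMap F B (d j)) ^ (n + 1) ∈ (I ^ (n + 1) : Ideal B) :=
      Ideal.pow_mem_pow (Ideal.subset_span (Set.mem_range_self j)) (n + 1)
    rw [heI] at h1
    obtain ⟨c, hc⟩ := Submodule.mem_span_singleton.mp h1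
    have h2 : w ∈ Module.End.maxGenEigenspace (Ψ (b j)) (d j) := by
      rw [Module.End.mem_maxGenEigenspace]
      refine ⟨n + 1, ?_⟩
      have h3 : (Ψ (b j) - d j • (1 : Module.End F V)) ^ (n + 1)
          = Ψ ((b j - algebraMap F B (d j)) ^ (n + 1)) := by
        rw [map_pow, map_sub, AlgHom.commutes]
        rfl
      rw [h3, ← hc, smul_eq_mul, map_mul, Module.End.mul_apply, h, map_zero]
    exact (abs_gen Ψ b d j w).mp h2

theorem abs_theta [FiniteDimensional F B] (X : Submodule F V) (hX : X ≠ ⊥)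
    (hW : ∀ x ∈ X, ∀ j, x ∈ Module.End.maxGenEigenspace (Ψ (b j)) (d j)) :
    ∃ θ : B →ₐ[F] AlgebraicClosure F, (∀ j, θ (b j) = algebraMap F _ (d j)) ∧
      ∀ f, (∀ x ∈ X, Ψ f x = 0) → θ f = 0 := by
  let J : Ideal B :=
    { carrier := {c | ∀ x ∈ X, Ψ c x = 0}
      add_mem' := fun {c c'} hc hc' x hx => by
        rw [map_add, LinearMap.add_apply, hc x hx, hc' x hx, add_zero]
      zero_mem' := fun x _ => by rw [map_zero, LinearMap.zero_apply]
      smul_mem' := fun c c' hc' x hx => by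
        show Ψ (c * c') x = 0
        rw [map_mul, Module.End.mul_apply, hc' x hx, map_zero] }
  have hJ : J ≠ ⊤ := by
    intro h
    apply hX
    rw [eq_bot_iff]
    intro x hx
    have h1 : (1 : B) ∈ J := by rw [h]; trivial
    have h2 := h1 x hx
    rw [map_one] at h2
    exact h2
  obtain ⟨m, hm, hJm⟩ := Ideal.exists_le_maximal J hJ
  let _ : Field (B ⧸ m) := Ideal.Quotient.field m
  have hfin : Module.Finite F (B ⧸ m) :=
    Module.Finite.of_surjective (Ideal.Quotient.mkₐ F m).toLinearMap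
      (Ideal.Quotient.mkₐ_surjective F m)
  have halg : Algebra.IsAlgebraic F (B ⧸ m) := Algebra.IsAlgebraic.of_finite F (B ⧸ m)
  let θ : B →ₐ[F] AlgebraicClosure F :=
    (IsAlgClosed.lift : (B ⧸ m) →ₐ[F] AlgebraicClosure F).comp (Ideal.Quotient.mkₐ F m)
  have hz : ∀ c ∈ m, θ c = 0 := by
    intro c hc
    show (IsAlgClosed.lift : (B ⧸ m) →ₐ[F] AlgebraicClosure F) (Ideal.Quotient.mk m c) = 0
    rw [Ideal.Quotient.eq_zero_iff_mem.mpr hc, map_zero]
  refine ⟨θ, fun j => ?_, fun f hf => hz f (hJm hf)⟩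
  have h1 : (b j - algebraMap F B (d j)) ^ (Module.finrank F V) ∈ J := fun x hx =>
    (abs_gen Ψ b d j x).mp (hW x hx j)
  have h2 : b j - algebraMap F B (d j) ∈ m := hm.isPrime.mem_of_pow_mem _ (hJm h1)
  have h3 := hz _ h2
  rw [map_sub, AlgHom.commutes, sub_eq_zero] at h3
  exact h3

end Core

section Eqv

variable {F U G : Type} [Field F] [AddCommGroup U] [Module F U] [Group G]
  (ρ : Representation F G U) (M : Submodule F U) (v : U)

/-- equivariant endomorphisms -/
def abs_Eq (T : Module.End F U) : Prop :=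
  (∀ u ∈ M, T u ∈ M) ∧ (∀ u ∈ M, ∀ g, T (ρ g u) = ρ g (T u))

variable {ρ M v}

theorem abs_uniq (hgen : ∀ u ∈ M, u ∈ Submodule.span F (Set.range fun g => ρ g v)) (hv : v ∈ M)
    {T T' : Module.End F U} (hT : abs_Eq ρ M T) (hT' : abs_Eq ρ M T') (h : T v = T' v) :
    ∀ u ∈ M, T u = T' u := by
  intro u hu
  have h1 := hgen u hu
  clear hu
  induction h1 using Submodule.span_induction with
  | mem x hx =>
    obtain ⟨g, rfl⟩ := hx
    show T (ρ g v) = T' (ρ g v)
    rw [hT.2 v hv, hT'.2 v hv, h]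
  | zero => rw [map_zero, map_zero]
  | add x y hx hy ihx ihy => rw [map_add, map_add, ihx, ihy]
  | smul c x hx ih => rw [map_smul, map_smul, ih]

theorem abs_comm {T : Module.End F U} (hT : abs_Eq ρ M T) {L : Module.End F U}
    (hL : L ∈ Submodule.span F (Set.range fun g => ρ g)) : ∀ u ∈ M, T (L u) = L (T u) := by
  intro u hu
  induction hL using Submodule.span_induction with
  | mem x hx =>
    obtain ⟨g, rfl⟩ := hx
    exact hT.2 u hu g
  | zero => rw [LinearMap.zero_apply, map_zero, LinearMap.zero_apply]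
  | add x y hx hy ihx ihy => rw [LinearMap.add_apply, LinearMap.add_apply, map_add, ihx, ihy]
  | smul c x hx ih => rw [LinearMap.smul_apply, LinearMap.smul_apply, map_smul, ih]

theorem abs_Eq_one : abs_Eq ρ M (1 : Module.End F U) :=
  ⟨fun u hu => hu, fun u _ g => rfl⟩

theorem abs_Eq_add {T T' : Module.End F U} (hT : abs_Eq ρ M T) (hT' : abs_Eq ρ M T') :
    abs_Eq ρ M (T + T') :=
  ⟨fun u hu => M.add_mem (hT.1 u hu) (hT'.1 u hu), fun u hu g => by
    rw [LinearMap.add_apply, LinearMap.add_apply, map_add, hT.2 u hu, hT'.2 u hu]⟩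

theorem abs_Eq_smul {T : Module.End F U} (c : F) (hT : abs_Eq ρ M T) : abs_Eq ρ M (c • T) :=
  ⟨fun u hu => M.smul_mem c (hT.1 u hu), fun u hu g => by
    rw [LinearMap.smul_apply, LinearMap.smul_apply, map_smul, hT.2 u hu]⟩

theorem abs_Eq_mul {T T' : Module.End F U} (hT : abs_Eq ρ M T) (hT' : abs_Eq ρ M T') :
    abs_Eq ρ M (T * T') :=
  ⟨fun u hu => hT.1 _ (hT'.1 u hu), fun u hu g => by
    rw [Module.End.mul_apply, Module.End.mul_apply, hT'.2 u hu, hT.2 _ (hT'.1 u hu)]⟩

end Eqv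

/-- the homomorphism from `S` to the endomorphisms of `M` -/
theorem abs_Phi {F U G S : Type} [Field F] [AddCommGroup U] [Module F U] [Group G]
    [CommRing S] [Algebra F S] (ρ : Representation F G U) (M : Submodule F U) (v : U)
    (E : S →ₐ[F] Module.End F U) (hv : v ∈ M)
    (hgen : ∀ u ∈ M, u ∈ Submodule.span F (Set.range fun g => ρ g v))
    (hE : ∀ f : S, ∃ T : Module.End F U, abs_Eq ρ M T ∧ T v = E f v)
    (hEs : ∀ f, E f ∈ Submodule.span F (Set.range fun g => ρ g)) :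
    ∃ Φ : S →ₐ[F] Module.End F M, ∀ f, ∀ T : Module.End F U, abs_Eq ρ M T → T v = E f v →
      ∀ u : M, ((Φ f u : M) : U) = T u := by
  choose Tc hT hTv using hE
  have key : ∀ f, ∀ T : Module.End F U, abs_Eq ρ M T → T v = E f v → ∀ u ∈ M, Tc f u = T u :=
    fun f T h1 h2 => abs_uniq hgen hv (hT f) h1 ((hTv f).trans h2.symm)
  let Φl : S →ₗ[F] Module.End F M :=
    { toFun := fun f => (Tc f).restrict (hT f).1
      map_add' := fun f f' => by
        ext u
        show Tc (f + f') u = (Tc f + Tc f') u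
        refine key (f + f') _ (abs_Eq_add (hT f) (hT f')) ?_ _ u.2
        rw [LinearMap.add_apply, hTv, hTv, map_add, LinearMap.add_apply]
      map_smul' := fun c f => by
        ext u
        show Tc (c • f) u = (c • Tc f) u
        refine key (c • f) _ (abs_Eq_smul c (hT f)) ?_ _ u.2
        rw [LinearMap.smul_apply, hTv, map_smul, LinearMap.smul_apply] }
  let Φ : S →ₐ[F] Module.End F M := AlgHom.ofLinearMap Φl
    (by
      ext u
      show Tc 1 u = (1 : Module.End F U) u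
      refine key 1 _ abs_Eq_one ?_ _ u.2
      rw [map_one])
    (by
      intro f f'
      ext u
      show Tc (f * f') u = (Tc f * Tc f') u
      refine key (f * f') _ (abs_Eq_mul (hT f) (hT f')) ?_ _ u.2
      rw [Module.End.mul_apply, hTv f', abs_comm (hT f) (hEs f') v hv, hTv f, mul_comm f f',
        map_mul, Module.End.mul_apply])
  refine ⟨Φ, fun f T h1 h2 u => ?_⟩
  exact key f T h1 h2 u u.2

theorem t_ABS : C_ABS := by
  intro F U G S ι _ _ _ _ _ _ _ ρ M v E q d D hM hv hgen hEnd hE hEs hD hθ A B' hA hB hAB hABW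
  by_contra hcon
  rw [not_or] at hcon
  obtain ⟨hA0, hB0⟩ := hcon
  have hE' : ∀ f : S, ∃ T : Module.End F U, abs_Eq ρ M T ∧ T v = E f v := by
    intro f
    obtain ⟨T, h1, h2, h3⟩ := hE f
    exact ⟨T, ⟨h1, h2⟩, h3⟩
  obtain ⟨Φ, hΦ⟩ := abs_Phi ρ M v E hv hgen hE' hEs
  -- the `Φ f` commute with the group
  let σ : G → Module.End F M := fun g => (ρ g).restrict (hM g)
  have hΦσ : ∀ f g (u : M), Φ f (σ g u) = σ g (Φ f u) := by
    intro f g u
    obtain ⟨T, hT, hTv⟩ := hE' f
    apply Subtype.ext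
    rw [hΦ f T hT hTv]
    show T (ρ g u) = ρ g (Φ f u : M)
    rw [hΦ f T hT hTv, hT.2 u u.2]
  have hDΦ : ∀ j (u : M), ((Φ (q j) u : M) : U) = D j u := fun j u =>
    hΦ (q j) (D j) ⟨(hD j).1, (hD j).2.1⟩ (hD j).2.2 u
  have hpow : ∀ j (k : ℕ) (u : M),
      ((((Φ (q j) - d j • (1 : Module.End F M)) ^ k) u : M) : U)
        = ((D j - d j • (1 : Module.End F U)) ^ k) u := by
    intro j k
    induction k with
    | zero => intro u; rfl
    | succ k ih =>
      intro u
      rw [pow_succ, pow_succ, Module.End.mul_apply, Module.End.mul_apply, ih]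
      congr 1
      show ((Φ (q j) u - d j • u : M) : U) = D j u - d j • (u : U)
      rw [Submodule.coe_sub, hDΦ]
      rfl
  have hgenW : ∀ j (u : M), (u : U) ∈ Module.End.maxGenEigenspace (D j) (d j) ↔
      u ∈ Module.End.maxGenEigenspace (Φ (q j)) (d j) := by
    intro j u
    rw [Module.End.mem_maxGenEigenspace, Module.End.mem_maxGenEigenspace]
    refine exists_congr fun k => ?_
    rw [← hpow, Submodule.coe_eq_zero]
  -- the finite dimensional algebra
  let B := S ⧸ RingHom.ker Φ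
  let Ψ : B →ₐ[F] Module.End F M := Ideal.kerLiftAlg Φ
  have hΨ : ∀ f, Ψ (Ideal.Quotient.mk (RingHom.ker Φ) f) = Φ f := fun f => rfl
  have hBfin : FiniteDimensional F B :=
    Module.Finite.of_injective Ψ.toLinearMap (Ideal.kerLiftAlg_injective Φ)
  let b : ι → B := fun j => Ideal.Quotient.mk (RingHom.ker Φ) (q j)
  obtain ⟨e, he, heW⟩ := abs_idem Ψ b d
  have hWmem : ∀ u : M, (u : U) ∈ M ⊓ ⨅ j, Module.End.maxGenEigenspace (D j) (d j) ↔
      Ψ e u = 0 := by
    intro u
    rw [← heW u, Submodule.mem_inf, Submodule.mem_iInf]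
    constructor
    · intro h j
      exact (hgenW j u).mp (h.2 j)
    · intro h
      exact ⟨u.2, fun j => (hgenW j u).mpr (h j)⟩
  have hAW : A ≤ M ⊓ ⨅ j, Module.End.maxGenEigenspace (D j) (d j) := by
    rw [← hABW]; exact le_sup_left
  have hBW : B' ≤ M ⊓ ⨅ j, Module.End.maxGenEigenspace (D j) (d j) := by
    rw [← hABW]; exact le_sup_right
  let X : Submodule F M := A.comap M.subtype
  let Y : Submodule F M := B'.comap M.subtype
  have hX0 : X ≠ ⊥ := by
    intro h
    apply hA0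
    rw [eq_bot_iff]
    intro a ha
    have h1 : (⟨a, (hAW ha).1⟩ : M) ∈ X := ha
    rw [h] at h1
    exact congrArg Subtype.val h1
  have hY0 : Y ≠ ⊥ := by
    intro h
    apply hB0
    rw [eq_bot_iff]
    intro a ha
    have h1 : (⟨a, (hBW ha).1⟩ : M) ∈ Y := ha
    rw [h] at h1
    exact congrArg Subtype.val h1
  have hXP : ∀ x ∈ X, Ψ e x = 0 := fun x hx => (hWmem x).mp (hAW hx)
  have hYP : ∀ x ∈ Y, Ψ e x = 0 := fun x hx => (hWmem x).mp (hBW hx)
  have hXY : ∀ x, x ∈ X → x ∈ Y → x = 0 := by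
    intro x hx hy
    have h1 : (x : U) ∈ A ⊓ B' := ⟨hx, hy⟩
    rw [hAB] at h1
    exact Subtype.ext h1
  have hsum : ∀ u, Ψ e u = 0 → ∃ x ∈ X, ∃ y ∈ Y, x + y = u := by
    intro u hu
    have h1 := (hWmem u).mpr hu
    rw [← hABW] at h1
    obtain ⟨a, ha, c, hc, hac⟩ := Submodule.mem_sup.mp h1
    exact ⟨⟨a, (hAW ha).1⟩, ha, ⟨c, (hBW hc).1⟩, hc, Subtype.ext hac⟩
  have hPP : ∀ u, Ψ e (Ψ e u) = Ψ e u := by
    intro u
    rw [← Module.End.mul_apply, ← map_mul, he.eq]
  let K : Submodule F M := Y ⊔ LinearMap.range (Ψ e)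
  have hXK : IsCompl X K := by
    constructor
    · rw [Submodule.disjoint_def]
      intro x hx hk
      obtain ⟨y, hy, w, hw, hyw⟩ := Submodule.mem_sup.mp hk
      obtain ⟨u, rfl⟩ := hw
      have h1 := congrArg (Ψ e) hyw
      rw [map_add, hYP y hy, hPP, hXP x hx, zero_add] at h1
      rw [h1, add_zero] at hyw
      exact hXY x hx (hyw ▸ hy)
    · rw [codisjoint_iff_le_sup]
      intro u _
      obtain ⟨x, hx, y, hy, hxy⟩ := hsum (u - Ψ e u) (by rw [map_sub, hPP, sub_self])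
      have h2 : u = x + (y + Ψ e u) := by
        rw [← add_assoc, hxy, sub_add_cancel]
      rw [h2]
      exact Submodule.add_mem_sup hx (Submodule.add_mem_sup hy ⟨u, rfl⟩)
  let t : Module.End F M := X.projection K hXK
  have htX : ∀ x ∈ X, t x = x := fun x hx => Submodule.projection_apply_of_mem_left hXK hx
  have htK : ∀ x ∈ K, t x = 0 := fun x hx => by
    rw [← LinearMap.mem_ker]
    show x ∈ LinearMap.ker (X.projection K hXK)
    rw [Submodule.ker_projection]
    exact hx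
  have hσX : ∀ g, ∀ x ∈ X, σ g x ∈ X := fun g x hx => hA g x hx
  have hσY : ∀ g, ∀ x ∈ Y, σ g x ∈ Y := fun g x hx => hB g x hx
  have hΨσ : ∀ c : B, ∀ g (u : M), Ψ c (σ g u) = σ g (Ψ c u) := by
    intro c g u
    obtain ⟨f, rfl⟩ := Ideal.Quotient.mk_surjective c
    exact hΦσ f g u
  have hσK : ∀ g, ∀ x ∈ K, σ g x ∈ K := by
    intro g x hx
    obtain ⟨y, hy, w, hw, rfl⟩ := Submodule.mem_sup.mp hx
    obtain ⟨u, rfl⟩ := hw
    rw [map_add]
    refine Submodule.add_mem_sup (hσY g y hy) ⟨σ g u, hΨσ e g u⟩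
  have htσ : ∀ g u, t (σ g u) = σ g (t u) := by
    intro g u
    have h1 : u ∈ X ⊔ K := by rw [hXK.sup_eq_top]; trivial
    obtain ⟨x, hx, k, hk, rfl⟩ := Submodule.mem_sup.mp h1
    rw [map_add, map_add, map_add, htX _ (hσX g x hx), htK _ (hσK g k hk), htX x hx, htK k hk,
      add_zero, add_zero]
  obtain ⟨π, hπ⟩ := LinearMap.exists_leftInverse_of_injective M.subtype M.ker_subtype
  have hπ' : ∀ u : M, π u = u := fun u => LinearMap.congr_fun hπ u
  let T : Module.End F U := M.subtype ∘ₗ t ∘ₗ π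
  have hTM : ∀ u : M, T u = (t u : M) := by
    intro u
    show ((t (π u) : M) : U) = _
    rw [hπ']
  have hTeq : abs_Eq ρ M T := by
    refine ⟨fun u _ => (t (π u)).2, fun u hu g => ?_⟩
    have h1 := hTM ⟨u, hu⟩
    have h2 := hTM (σ g ⟨u, hu⟩)
    have h3 : ((σ g ⟨u, hu⟩ : M) : U) = ρ g u := rfl
    rw [h3] at h2
    rw [h2, htσ]
    show ρ g (t ⟨u, hu⟩ : M) = _
    rw [← h1]
  obtain ⟨f, hf⟩ := hEnd T hTeq.1 hTeq.2
  have hft : ∀ u : M, Φ f u = t u := by
    intro u
    apply Subtype.ext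
    rw [hΦ f T hTeq hf u, hTM]
  obtain ⟨θ₁, h11, h12⟩ := abs_theta Ψ b d X hX0
    (fun x hx j => (heW x).mpr (hXP x hx) j)
  obtain ⟨θ₂, h21, h22⟩ := abs_theta Ψ b d Y hY0
    (fun x hx j => (heW x).mpr (hYP x hx) j)
  have h3 := hθ (θ₁.comp (Ideal.Quotient.mkₐ F (RingHom.ker Φ)))
    (θ₂.comp (Ideal.Quotient.mkₐ F (RingHom.ker Φ))) (fun j => h11 j) (fun j => h21 j)
  have h4 : θ₁ (Ideal.Quotient.mk (RingHom.ker Φ) f) = θ₂ (Ideal.Quotient.mk (RingHom.ker Φ) f) :=
    AlgHom.congr_fun h3 f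
  have h5 : θ₁ (Ideal.Quotient.mk (RingHom.ker Φ) f - 1) = 0 := by
    apply h12
    intro x hx
    rw [map_sub, map_one, hΨ, LinearMap.sub_apply, hft, htX x hx]
    exact sub_self x
  have h6 : θ₂ (Ideal.Quotient.mk (RingHom.ker Φ) f) = 0 := by
    apply h22
    intro y hy
    rw [hΨ, hft]
    exact htK y (Submodule.mem_sup_left hy)
  rw [map_sub, map_one, h4, h6, zero_sub, neg_eq_zero] at h5
  exact one_ne_zero h5

end Pool.Agent.H60.TF
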