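import Pool.Agent.H74.TF.Stm

/-!
# Project TF, part RES
-/

set_option autoImplicit false

namespace Pool.Agent.H60.TF

open Finset Equiv MvPolynomial Pool.Agent.H74.TF

theorem res_eq_of_esymm {K : Type} [Field K] (s t : Multiset K) (hc : s.card = t.card)
    (h : ∀ j, s.esymm j = t.esymm j) : s = t := by
  have h1 := Multiset.prod_X_sub_X_eq_sum_esymm s
  have h2 := Multiset.prod_X_sub_X_eq_sum_esymm t
  have h3 : (s.map fun a => Polynomial.X - Polynomial.C a).prod
      = (t.map fun a => Polynomial.X - Polynomial.C a).prod := by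
    rw [h1, h2, hc]
    refine Finset.sum_congr rfl fun j _ => ?_
    rw [h j]
  have h4 := congrArg Polynomial.roots h3
  rwa [Polynomial.roots_multiset_prod_X_sub_C, Polynomial.roots_multiset_prod_X_sub_C] at h4

theorem res_enum {K : Type} (s : Multiset K) (m : ℕ) (h : s.card = m) :
    ∃ x : Fin m → K, (univ : Finset (Fin m)).val.map x = s := by
  subst h
  induction s using Quotient.inductionOn with
  | h l =>
    refine ⟨fun i => l.get i, ?_⟩
    rw [Fin.univ_val_map]
    show ((List.ofFn fun i => l.get i : List K) : Multiset K) = (l : Multiset K)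
    congr 1
    exact List.ofFn_get l

theorem res_exists {K : Type} [Field K] [IsAlgClosed K] (m : ℕ) (a : Fin m → K) :
    ∃ x : Fin m → K, ∀ i : Fin m, ((univ : Finset (Fin m)).val.map x).esymm (i + 1) = a i := by
  classical
  let Q : Polynomial K := ∑ i : Fin m,
    Polynomial.monomial (m - 1 - (i : ℕ)) ((-1) ^ ((i : ℕ) + 1) * a i)
  have hQ : Q.degree < (m : ℕ) := by
    refine lt_of_le_of_lt (Polynomial.degree_sum_le _ _) ?_
    rw [Finset.sup_lt_iff]
    · intro i _
      refine lt_of_le_of_lt (Polynomial.degree_monomial_le _ _) ?_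
      have := i.2
      exact_mod_cast (by omega : m - 1 - (i : ℕ) < m)
    · exact WithBot.bot_lt_coe m
  let P : Polynomial K := Polynomial.X ^ m + Q
  have hPm : P.Monic := Polynomial.monic_X_pow_add hQ
  have hPd : P.natDegree = m := by
    have : P.degree = (m : ℕ) := by
      show (Polynomial.X ^ m + Q).degree = _
      rw [Polynomial.degree_add_eq_left_of_degree_lt (by rw [Polynomial.degree_X_pow]; exact hQ),
        Polynomial.degree_X_pow]
    exact Polynomial.natDegree_eq_of_degree_eq_some this
  have hsp : P.roots.card = P.natDegree := by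
    have := IsAlgClosed.splits P
    exact (Polynomial.splits_iff_card_roots.mp this)
  obtain ⟨x, hx⟩ := res_enum P.roots m (hsp.trans hPd)
  refine ⟨x, fun i => ?_⟩
  rw [hx]
  have h1 := Polynomial.coeff_eq_esymm_roots_of_card hsp (k := m - 1 - (i : ℕ))
    (by rw [hPd]; omega)
  rw [hPd, hPm.leadingCoeff, one_mul] at h1
  have hi := i.2
  have h2 : m - (m - 1 - (i : ℕ)) = (i : ℕ) + 1 := by omega
  rw [h2] at h1
  have h3 : P.coeff (m - 1 - (i : ℕ)) = (-1) ^ ((i : ℕ) + 1) * a i := by
    show (Polynomial.X ^ m + Q).coeff _ = _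
    rw [Polynomial.coeff_add, Polynomial.coeff_X_pow, if_neg (by omega), zero_add]
    show (∑ i : Fin m, Polynomial.monomial (m - 1 - (i : ℕ)) ((-1) ^ ((i : ℕ) + 1) * a i)).coeff _
      = _
    rw [Polynomial.finsetSum_coeff]
    rw [Finset.sum_eq_single i]
    · rw [Polynomial.coeff_monomial, if_pos rfl]
    · intro j _ hj
      rw [Polynomial.coeff_monomial, if_neg]
      intro he
      apply hj
      apply Fin.ext
      have := j.2
      omega
    · intro h; exact absurd (Finset.mem_univ i) h
  rw [h3] at h1
  have h4 : ((-1 : K)) ^ ((i : ℕ) + 1) ≠ 0 := pow_ne_zero _ (neg_ne_zero.mpr one_ne_zero)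
  exact (mul_left_cancel₀ h4 h1).symm

theorem res_s1 {K : Type} [Field K] (m : ℕ) (x : Fin m → K) :
    (univ : Finset (Fin m × Bool)).val.map (fun z => x z.1 + if z.2 then 1 else 0)
      = (univ : Finset (Fin m)).val.map x + ((univ : Finset (Fin m)).val.map x).map (· + 1) := by
  have key : ∀ {α : Type} [Fintype α] (f : α → K),
      (univ : Finset α).val.map f = ∑ z : α, ({f z} : Multiset K) := by
    intro α _ f
    rw [Finset.sum_eq_multiset_sum, ← Multiset.sum_map_singleton (univ.val.map f),
      Multiset.map_map]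
    rfl
  rw [Multiset.map_map, key, key, key, Fintype.sum_prod_type]
  simp only [Fintype.sum_bool, Function.comp]
  rw [Finset.sum_add_distrib, add_comm]
  simp


theorem res_s2 {K : Type} [Field K] (m k : ℕ) (x : Fin m → K) (y : Fin k → K) :
    (univ : Finset (Pt m k)).val.map
        (Sum.elim (fun z : Fin m × Bool => x z.1 + if z.2 then 1 else 0) y)
      = (univ : Finset (Fin m × Bool)).val.map (fun z => x z.1 + if z.2 then 1 else 0)
        + (univ : Finset (Fin k)).val.map y := by
  have key : ∀ {α : Type} [Fintype α] (f : α → K),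
      (univ : Finset α).val.map f = ∑ z : α, ({f z} : Multiset K) := by
    intro α _ f
    rw [Finset.sum_eq_multiset_sum, ← Multiset.sum_map_singleton (univ.val.map f),
      Multiset.map_map]
    rfl
  rw [key, key, key, Fintype.sum_sum_type]
  rfl

theorem res_shift {K : Type} [Field K] (p : ℕ) [CharP K p] (hp : Odd p) (s t : Multiset K)
    (h : s + s.map (· + 1) = t + t.map (· + 1)) : s = t := by
  classical
  have hinj : Function.Injective (fun a : K => a + 1) := add_left_injective 1
  have hcount : ∀ (u : Multiset K) (r : K), (u.map (· + 1)).count r = u.count (r - 1) := by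
    intro u r
    have := Multiset.count_map_eq_count' (fun a : K => a + 1) u hinj (r - 1)
    simpa using this
  let d : K → ℤ := fun r => (s.count r : ℤ) - t.count r
  have hd : ∀ r, d r + d (r - 1) = 0 := by
    intro r
    have h1 := congrArg (Multiset.count r) h
    rw [Multiset.count_add, Multiset.count_add, hcount, hcount] at h1
    show ((s.count r : ℤ) - t.count r) + ((s.count (r - 1) : ℤ) - t.count (r - 1)) = 0
    have h2 : ((s.count r + s.count (r - 1) : ℕ) : ℤ) = ((t.count r + t.count (r - 1) : ℕ) : ℤ) := by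
      exact_mod_cast h1
    push_cast at h2
    linarith
  have hit : ∀ (n : ℕ) (r : K), d (r - n) = (-1) ^ n * d r := by
    intro n
    induction n with
    | zero => intro r; simp
    | succ n ih =>
      intro r
      have h1 := hd (r - n)
      have h2 : r - ((n + 1 : ℕ) : K) = r - n - 1 := by push_cast; ring
      rw [h2, pow_succ]
      rw [ih r] at h1
      linarith
  have hz : ∀ r, d r = 0 := by
    intro r
    have h1 := hit p r
    rw [CharP.cast_eq_zero, sub_zero, hp.neg_one_pow] at h1
    linarith
  ext r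
  have := hz r
  have h2 : (s.count r : ℤ) = t.count r := by
    have h3 : (s.count r : ℤ) - t.count r = 0 := this
    linarith
  exact_mod_cast h2

theorem res_factor {F K : Type} [Field F] [Field K] [Algebra F K] (m k : ℕ)
    (θ : MvPolynomial (Fin m ⊕ Fin k) F →ₐ[F] K) (x : Fin m → K) (y : Fin k → K)
    (hx : ∀ i : Fin m, ((univ : Finset (Fin m)).val.map x).esymm (i + 1) = θ (X (Sum.inl i)))
    (hy : ∀ i : Fin k, ((univ : Finset (Fin k)).val.map y).esymm (i + 1) = θ (X (Sum.inr i)))
    (f : MvPolynomial (Fin m ⊕ Fin k) F) :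
    θ f = aeval (Sum.elim x y) (aeval (es F m k) f) := by
  have : θ = (aeval (Sum.elim x y)).comp (aeval (es F m k)) := by
    apply MvPolynomial.algHom_ext
    intro c
    rw [AlgHom.comp_apply, aeval_X]
    rcases c with i | r
    · show θ (X (Sum.inl i)) = aeval (Sum.elim x y) (rename Sum.inl (esymm (Fin m) F (i + 1)))
      rw [aeval_rename, Sum.elim_comp_inl, aeval_esymm_eq_multiset_esymm, hx]
    · show θ (X (Sum.inr r)) = aeval (Sum.elim x y) (rename Sum.inr (esymm (Fin k) F (r + 1)))
      rw [aeval_rename, Sum.elim_comp_inr, aeval_esymm_eq_multiset_esymm, hy]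
  rw [this]
  rfl

theorem res_aeval_s1 {F K : Type} [Field F] [Field K] [Algebra F K] (m k : ℕ)
    (x : Fin m → K) (y : Fin k → K) (j : ℕ) :
    aeval (Sum.elim x y) (aeval (s1 F m k) (esymm (Fin m × Bool) F j))
      = ((univ : Finset (Fin m × Bool)).val.map
          (fun z => x z.1 + if z.2 then 1 else 0)).esymm j := by
  rw [← aeval_esymm_eq_multiset_esymm (Fin m × Bool) F, ← AlgHom.comp_apply]
  congr 1
  apply MvPolynomial.algHom_ext
  intro z
  rw [AlgHom.comp_apply, aeval_X, aeval_X]
  show aeval (Sum.elim x y) (X (Sum.inl z.1) + if z.2 then 1 else 0) = _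
  rw [map_add, aeval_X, Sum.elim_inl]
  congr 1
  split_ifs <;> simp

theorem res_aeval_s2 {F K : Type} [Field F] [Field K] [Algebra F K] (m k : ℕ)
    (x : Fin m → K) (y : Fin k → K) (j : ℕ) :
    aeval (Sum.elim x y) (aeval (s2 F m k) (esymm (Pt m k) F j))
      = ((univ : Finset (Pt m k)).val.map
        (Sum.elim (fun z : Fin m × Bool => x z.1 + if z.2 then 1 else 0) y)).esymm j := by
  rw [← aeval_esymm_eq_multiset_esymm (Pt m k) F, ← AlgHom.comp_apply]
  congr 1
  apply MvPolynomial.algHom_ext
  intro z
  rw [AlgHom.comp_apply, aeval_X, aeval_X]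
  rcases z with z | r
  · show aeval (Sum.elim x y) (X (Sum.inl z.1) + if z.2 then 1 else 0) = _
    rw [map_add, aeval_X, Sum.elim_inl, Sum.elim_inl]
    congr 1
    split_ifs <;> simp
  · show aeval (Sum.elim x y) (X (Sum.inr r)) = _
    rw [aeval_X, Sum.elim_inr, Sum.elim_inr]

theorem t_RES : C_RES := by
  intro p F K _ _ _ _ _ m k qi qo hp hqi hqo θ θ' h1 h2
  have : CharP K p := charP_of_injective_algebraMap (algebraMap F K).injective p
  obtain ⟨x, hx⟩ := res_exists m (fun i => θ (X (Sum.inl i)))
  obtain ⟨y, hy⟩ := res_exists k (fun i => θ (X (Sum.inr i)))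
  obtain ⟨x', hx'⟩ := res_exists m (fun i => θ' (X (Sum.inl i)))
  obtain ⟨y', hy'⟩ := res_exists k (fun i => θ' (X (Sum.inr i)))
  have hf := res_factor m k θ x y hx hy
  have hf' := res_factor m k θ' x' y' hx' hy'
  have e1 : (univ : Finset (Fin m × Bool)).val.map (fun z => x z.1 + if z.2 then (1 : K) else 0)
      = (univ : Finset (Fin m × Bool)).val.map (fun z => x' z.1 + if z.2 then (1 : K) else 0) := by
    apply res_eq_of_esymm
    · simp
    · intro j
      have := h1 j
      rw [hf, hf', hqi, res_aeval_s1, res_aeval_s1] at this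
      exact this
  have e2 : (univ : Finset (Pt m k)).val.map
        (Sum.elim (fun z : Fin m × Bool => x z.1 + if z.2 then 1 else 0) y)
      = (univ : Finset (Pt m k)).val.map
        (Sum.elim (fun z : Fin m × Bool => x' z.1 + if z.2 then 1 else 0) y') := by
    apply res_eq_of_esymm
    · simp
    · intro j
      have := h2 j
      rw [hf, hf', hqo, res_aeval_s2, res_aeval_s2] at this
      exact this
  have e3 : (univ : Finset (Fin k)).val.map y = (univ : Finset (Fin k)).val.map y' := by
    rw [res_s2, res_s2, e1] at e2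
    exact add_left_cancel e2
  have e4 : (univ : Finset (Fin m)).val.map x = (univ : Finset (Fin m)).val.map x' := by
    rw [res_s1, res_s1] at e1
    exact res_shift p hp _ _ e1
  apply MvPolynomial.algHom_ext
  intro c
  rcases c with i | r
  · rw [← hx i, ← hx' i, e4]
  · rw [← hy r, ← hy' r, e3]

end Pool.Agent.H60.TF
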